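import Pool.Agent.helper7.CSG.SpecD

/-!
# Module `GIN` (row `csg:GIN`, helper93): the abstract system of a map of class S
-/

set_option autoImplicit false

open Complex Metric Set Filter Topology MeasureTheory
open Pool.Agent.helper98.ILF
open HY (UD T S hd UN RM)
open PM (DD rm cx pd cr hdf LP DP)
open CSS (SE SV it JJ IB)
open PL (INR PG DK ht tr DI CY hG hq)

noncomputable section

namespace P2S

theorem GIN_it (f : SE) (k : ℕ) (z : ℂ) : it f k z = CSF.it (SF f) k z := rfl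

theorem GIN_PB (hVKF : VKF_stmt) (f : SE) (V : Set ℂ) (h : SS f V) (k j : ℕ) : VK f V (k + j) = CSF.PB (SF f) (VK f V k) j := by
  ext z
  exact (hVKF f V h).2.2.2.2.1 k j z

theorem GIN_VC (hVKF : VKF_stmt) (f : SE) (V : Set ℂ) (h : SS f V) (k j : ℕ) (a : ℂ) :
    VC f V (k + j) a = CSF.VC (SF f) (VK f V k) j a := by
  unfold VC CSF.VC
  rw [GIN_PB hVKF f V h k j]

theorem GIN_Ok (hLIF : CSS.LIF_stmt) (hIFC : CSS.IFC_stmt) (f : SE) : CSJ.Ok (SF f) := by
  have hS := (hIFC f).2.2.2.2.2.2.2.2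
  refine ⟨f.dif, ?_, ?_, ?_⟩
  · by_contra hcon
    push Not at hcon
    obtain ⟨z, hz⟩ := f.tra (Polynomial.C (f.f 0))
    rw [Polynomial.eval_C] at hz
    exact hz (hcon z 0)
  · intro X hX hXS a ha
    exact hLIF f X hX (fun x hx hh => hXS x hx ((hS (X x)).2 hh)) a ha
  · intro z hz
    exact (hS _).2 ((hIFC f).2.2.2.2.2.2.2.1 z hz)

theorem GIN (hLIF : CSS.LIF_stmt) (hIFC : CSS.IFC_stmt) (hVKF : VKF_stmt) (hVCF : VCF_stmt) : GIN_stmt := by
  intro f
  refine ⟨GIN_Ok hLIF hIFC f, GIN_it f, ?_⟩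
  intro V hV k
  obtain ⟨h1, h2, h3, h4, h5, h6, h7, h8⟩ := hVKF f V hV
  refine ⟨⟨h1 k, ?_, ?_, ?_⟩, GIN_VC hVKF f V hV k, ?_, ?_⟩
  · intro j a ha
    rw [← GIN_PB hVKF f V hV k j] at ha
    rw [← GIN_VC hVKF f V hV k j a]
    exact (hVCF f V hV (k + j) a ha).1
  · intro z hz
    exact h3 k ((h4 k z).2 hz)
  · intro s hs i
    exact h8 s hs i k
  · intro p hp i
    exact (h7 p hp i k).2
  · intro t p q
    funext x
    have e1 := GIN_VC hVKF f V hV k 0 q
    have e2 := GIN_VC hVKF f V hV k t p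
    rw [Nat.add_zero] at e1
    unfold FC CSF.FC
    rw [e1, e2]
    rfl

end P2S
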